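import Pool.Agent.Helper28_TP.StS

/-!
# Module TERM: at a terminal state with coarse structure the structure event is certain
-/

set_option autoImplicit false

namespace Pool.Agent.TP.H65

open Pool.Agent.TP

theorem term : TermStmt := by
  intro k N ρ p ε m n _ hp0 hp1 he0 he1 Reg C F X x₀ x₁ x₂ H Λ s hC hF hV hv hS
  have hU : U01 (Λ ×ˢ Finset.range (KK + 1)) s.q := by
    rintro ⟨v, j⟩ _
    rcases hv.ok.val v j with h | h | h
    · rw [h]; constructor <;> norm_num
    · rw [h]; constructor <;> norm_num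
    · rw [h]
      unfold q0
      split_ifs
      · exact ⟨hp0.le, hp1.le⟩
      · exact ⟨he0.le, he1.le⟩
  refine le_antisymm ?_ (PS_nonneg hU _)
  rw [← PS_false (Λ ×ˢ Finset.range (KK + 1)) s.q]
  refine PS_mono' hU fun A hA h1 _ hE => hE ⟨C, hS, s.R, ?_, hv.rc, ?_⟩
  · intro v hvR
    obtain ⟨j, hj, hq⟩ := hv.ok.opn v hvR
    have hvΛ : v ∈ Λ := by
      obtain ⟨⟨z, hz, hn⟩, hl⟩ := hv.inV v hvR
      have hM : 0 ≤ Ms m n := by unfold Ms; positivity
      have hzR : z ∈ Reg := by
        rcases Finset.mem_union.1 hz with h | h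
        · exact hC h
        · exact hF h
      refine hV z hzR v ⟨by linarith [hn.1], by linarith [hn.2]⟩ fun i hi0 hi1 => ?_
      linarith [hl i hi0 hi1]
    refine Finset.mem_image.2 ⟨(v, j), h1 (v, j) ?_ hq, rfl⟩
    exact Finset.mem_product.2 ⟨hvΛ, Finset.mem_range.2 (by omega)⟩
  · intro z hz
    obtain ⟨x, hx, hn, hl⟩ := hv.hit z hz
    refine ⟨x, hx, mem_bx.2 fun i => ?_⟩
    have hD : ((10 * (n + m + 1) : ℕ) : ℤ) = 10 * Ms m n := by unfold Ms; push_cast; ring
    have hB : ((2 * (n + m + 1) : ℕ) : ℤ) = 2 * Ms m n := by unfold Ms; push_cast; ring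
    rw [hD, hB]
    by_cases hi0 : i = 0
    · rw [hi0]; exact hn.1
    · by_cases hi1 : i = 1
      · rw [hi1]; exact hn.2
      · have h := hl i hi0 hi1
        have h2 : cen k (10 * Ms m n) z i = 0 := by
          unfold cen
          rw [if_neg hi0, if_neg hi1]
        rw [h2, sub_zero]
        exact h

end Pool.Agent.TP.H65
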